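import Pool.Agent.H24.Bip.Key
import Pool.Agent.H24.Cup.Stab

/-!
Bipartite graphs without induced disjoint unions of paths with at most eleven vertices, half graphs
and crowns are on-line `χ_OL`-bounded.
-/

namespace Pool.Agent.Results.MP_59dfc5_co.DisjointUnions

open H7.Online H24.Bip H24.Cup

theorem result : ∃ A : ℕ → SimpleGraph ℕ → ℕ, IsOnline A ∧
    ∀ n d t m : ℕ, 0 < n → ∃ h : ℕ → ℕ, ∀ (M : ℕ) (H : SimpleGraph (Fin M)), H.Colorable 2 →
      ¬ HasUnion H (fun i : Fin (m + m) => if (i : ℕ) < m then Obs n d else Stb t) →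
      ∀ k : ℕ, (∃ B : ℕ → SimpleGraph ℕ → ℕ, IsOnline B ∧ UsesAtMost B H k) →
        UsesAtMost A H (h k) := by
  obtain ⟨A, hA, h⟩ := main_fam key
  refine ⟨A, hA, fun n d t m hn => ?_⟩
  obtain ⟨n, rfl⟩ : ∃ j, n = j + 1 := ⟨n - 1, by omega⟩
  obtain ⟨f, hf⟩ := h n d t m
  exact ⟨f, fun M H h1 h2 k h3 => hf ⟨M, H⟩ h1 h2 k h3⟩

end Pool.Agent.Results.MP_59dfc5_co.DisjointUnions
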