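import Pool.Agent.H7.Online.Tree
import Pool.Agent.H7.Online.Lower
import Pool.Agent.H7.Online.FF

/-!
First-Fit is `χ_OL`-competitive on every class of graphs with bounded induced half graphs and
bounded induced crowns.
-/

namespace Pool.Agent.Results.MP_59dfc5_co.FirstFitStable

open H7.Online

theorem result : IsOnline firstFit ∧
    ∀ t : ℕ, ∃ h : ℕ → ℕ, ∀ (m : ℕ) (H : SimpleGraph (Fin m)),
      ¬ HasHalfGraph H t → ¬ HasCrown H t → ∀ k : ℕ,
      (∃ B : ℕ → SimpleGraph ℕ → ℕ, IsOnline B ∧ UsesAtMost B H k) →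
      UsesAtMost firstFit H (h k) := by
  classical
  refine ⟨firstFit_isOnline, fun t => ?_⟩
  choose N hN using fun k : ℕ => tree_embed (max t (k + 1)) (Sz (k + 1) + 1) (Sz (k + 1) + 1)
  refine ⟨N, fun m H hH hC k hB G σ hσ => ?_⟩
  obtain ⟨B, hB1, hB2⟩ := hB
  by_contra hcon
  push Not at hcon
  -- some vertex has a colour at least `N k`
  have hbig : ∃ i < m, N k ≤ firstFit i G := by
    by_contra hno
    push Not at hno
    have h1 : (Finset.range m).image (fun i => firstFit i G) ⊆ Finset.range (N k) := by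
      intro c hc
      rw [Finset.mem_image] at hc
      obtain ⟨i, hi, rfl⟩ := hc
      rw [Finset.mem_range] at hi ⊢
      exact hno i hi
    have h2 := Finset.card_le_card h1
    rw [Finset.card_range] at h2
    omega
  obtain ⟨i, hi, hNi⟩ := hbig
  have hg := grundy_of_presents hσ
  obtain ⟨e, he⟩ := hN k (Fin m) H _ hg (σ ⟨i, hi⟩) (by simpa using hNi)
    (fun h => no_clique_of_usesAtMost hB1 hB2 (h.mono (le_max_right _ _)))
    (fun h => hH (h.mono (le_max_left _ _)))
    (fun h => hC (h.mono (le_max_left _ _)))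
  exact no_tree_of_usesAtMost hB1 hB2 e he

end Pool.Agent.Results.MP_59dfc5_co.FirstFitStable
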