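import Pool.Agent.H7.Online.RankFin

/-!
Graphs without long induced paths and large induced half graphs are on-line `χ`-bounded, by one
on-line algorithm.
-/

namespace Pool.Agent.Results.MP_59dfc5_co.PathHalfGraph

open H7.Online

theorem result : ∃ A : ℕ → SimpleGraph ℕ → ℕ, IsOnline A ∧
    ∀ n t : ℕ, ∃ h : ℕ → ℕ, ∀ (m : ℕ) (H : SimpleGraph (Fin m)),
      ¬ HasPath H n → ¬ HasHalfGraph H t → ∀ k : ℕ,
        (¬ HasClique H (k + 1) → UsesAtMost A H (h k)) ∧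
        ((∃ B : ℕ → SimpleGraph ℕ → ℕ, IsOnline B ∧ UsesAtMost B H k) →
          UsesAtMost A H (h k)) := by
  obtain ⟨A, f, hA, hf⟩ := main_of_rankBdd rankBdd
  refine ⟨A, hA, fun n t => ⟨fun k => f n t (k + 1), fun m H hn ht k => ?_⟩⟩
  refine ⟨fun hk => hf n t (k + 1) m H hn ht hk, ?_⟩
  rintro ⟨B, hB1, hB2⟩
  exact hf n t (k + 1) m H hn ht (no_clique_of_usesAtMost hB1 hB2)

end Pool.Agent.Results.MP_59dfc5_co.PathHalfGraph
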