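import Pool.Agent.H7.Online.Stable
import Pool.Agent.H7.Online.Wqo

/-!
Classes of graphs without infinite antichains of bounded on-line chromatic number are on-line
`χ_OL`-bounded; directed families have one optimal on-line algorithm.
-/

namespace Pool.Agent.Results.MP_59dfc5_co.WqoClasses

open H7.Online

theorem result :
    (∀ (𝒟 : ∀ m : ℕ, SimpleGraph (Fin m) → Prop) (k : ℕ),
      (∀ (m : ℕ) (H : SimpleGraph (Fin m)), 𝒟 m H →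
        ∃ B : ℕ → SimpleGraph ℕ → ℕ, IsOnline B ∧ UsesAtMost B H k) →
      (∀ (m : ℕ) (H : SimpleGraph (Fin m)) (m' : ℕ) (H' : SimpleGraph (Fin m')),
        𝒟 m H → 𝒟 m' H' → ∃ (n : ℕ) (K : SimpleGraph (Fin n)),
          𝒟 n K ∧ Nonempty (H ↪g K) ∧ Nonempty (H' ↪g K)) →
      ∃ A : ℕ → SimpleGraph ℕ → ℕ, IsOnline A ∧
        ∀ (m : ℕ) (H : SimpleGraph (Fin m)), 𝒟 m H → UsesAtMost A H k) ∧
    (∀ (𝒢 : ∀ m : ℕ, SimpleGraph (Fin m) → Prop) (t : ℕ → ℕ),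
      (∀ (k : ℕ) (m : ℕ → ℕ) (X : ∀ n : ℕ, SimpleGraph (Fin (m n))),
        (∀ n : ℕ, 𝒢 (m n) (X n) ∧ (HasHalfGraph (X n) (t k) ∨ HasCrown (X n) (t k)) ∧
          ∃ B : ℕ → SimpleGraph ℕ → ℕ, IsOnline B ∧ UsesAtMost B (X n) k) →
        ∃ i j : ℕ, i < j ∧ Nonempty (X i ↪g X j)) →
      ∃ (A : ℕ → SimpleGraph ℕ → ℕ) (h : ℕ → ℕ), IsOnline A ∧
        ∀ (m : ℕ) (H : SimpleGraph (Fin m)) (k : ℕ), 𝒢 m H →
          (∃ B : ℕ → SimpleGraph ℕ → ℕ, IsOnline B ∧ UsesAtMost B H k) →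
          UsesAtMost A H (h k)) := by
  classical
  constructor
  · intro 𝒟 k hk hdir
    by_cases hne : ({X : FG | 𝒟 X.1 X.2} : Set FG).Nonempty
    · obtain ⟨A, hA⟩ := limit (D := {X : FG | 𝒟 X.1 X.2}) (k := k) hne
        (fun X hX Y hY => by
          obtain ⟨n, K, h1, h2, h3⟩ := hdir X.1 X.2 Y.1 Y.2 hX hY
          exact ⟨⟨n, K⟩, h1, h2, h3⟩)
        (fun X hX => hk X.1 X.2 hX)
      exact ⟨A, hA.1, fun m H hH => hA.uses (Y := ⟨m, H⟩) hH⟩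
    · refine ⟨_, online_id, fun m H hH => ?_⟩
      exact absurd ⟨(⟨m, H⟩ : FG), hH⟩ hne
  · intro 𝒢 t hw
    have hall : ∀ k, ∃ (N : ℕ) (A : ℕ → SimpleGraph ℕ → ℕ),
        Handles A {X : FG | 𝒢 X.1 X.2 ∧ OnlineLE X k} N := by
      intro k
      obtain ⟨N1, hN1⟩ := firstFit_stable (t k) k
      have h1 : Handles firstFit {X : FG | 𝒢 X.1 X.2 ∧ OnlineLE X k ∧
          ¬ HasHalfGraph X.2 (t k) ∧ ¬ HasCrown X.2 (t k)} N1 :=
        handles_of_uses firstFit_isOnline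
          (fun Y hY => hN1 Y.1 Y.2 hY.2.2.1 hY.2.2.2 hY.2.1)
      obtain ⟨N2, A2, h2⟩ := handled_of_wqo (k := k)
        (D := {X : FG | 𝒢 X.1 X.2 ∧ OnlineLE X k ∧
          (HasHalfGraph X.2 (t k) ∨ HasCrown X.2 (t k))})
        (fun X hX => hX.2.1)
        (fun X hX => hw k (fun n => (X n).1) (fun n => (X n).2)
          (fun n => ⟨(hX n).1, (hX n).2.2, (hX n).2.1⟩))
      obtain ⟨A, hA⟩ := union h1 h2
      refine ⟨_, A, hA.mono ?_⟩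
      rintro X ⟨hX1, hX2⟩
      by_cases h : HasHalfGraph X.2 (t k) ∨ HasCrown X.2 (t k)
      · exact Or.inr ⟨hX1, hX2, h⟩
      · rw [not_or] at h
        exact Or.inl ⟨hX1, hX2, h.1, h.2⟩
    choose N A hA using hall
    obtain ⟨A', hA1, hA2⟩ := combine hA
    exact ⟨A', _, hA1, fun m H k hH hk => hA2 k ⟨m, H⟩ ⟨hH, hk⟩⟩

end Pool.Agent.Results.MP_59dfc5_co.WqoClasses
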